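import Pool.Agent.Q9.Dice.F

/-!
# The maximal probability of a residue class for sums of identical dice

`n` identical dice with `m` faces, labelled by integers, are tossed; `M(n,k)` is the supremum of the
probability that the sum of the `n` labels is congruent to `k` modulo `n`, over all `m ≥ 2` and all
labellings.

The theorem determines `M(n,k)` for all `n ≥ 2` and `1 ≤ k ≤ n - 1`: with `o = n / gcd(n,k)`, the order
of `k` in `ℤ/n`,
`M(n,k) = max_{0 ≤ x ≤ 1} ∑_{j ≡ 1 mod o} C(n,j) x^j (1-x)^{n-j}`.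
In particular `M(n,k) = (1 - 1/n)^{n-1}` when `gcd(n,k) = 1`, and `M(n,n/2) = 1/2`.
-/

set_option autoImplicit false

namespace Pool.Agent.Results.MP_f30851_co.Determination

open Finset

/-- The probability that the sum of the labels of `n` independent tosses of a die with `m` faces
labelled `ℓ 0, …, ℓ (m-1)` is congruent to `k` modulo `n`: the number of outcomes
`t : Fin n → Fin m` with this property divided by `m^n`. -/
noncomputable def diceProb (n m : ℕ) (ℓ : Fin m → ℤ) (k : ZMod n) : ℝ :=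
  ((univ.filter fun t : Fin n → Fin m => ((∑ i, ℓ (t i) : ℤ) : ZMod n) = k).card : ℝ) / (m : ℝ) ^ n

/-- The supremum `M(n,k)` over all dice. -/
noncomputable def M (n : ℕ) (k : ℕ) : ℝ :=
  sSup {v | ∃ (m : ℕ) (ℓ : Fin m → ℤ), 2 ≤ m ∧ v = diceProb n m ℓ (k : ZMod n)}

/-- The same quantity in terms of probability vectors: the probability that the sum of `n` independent
residues with distribution `p` is `k`, i.e. the value `p^{*n}(k)` of the `n`-fold convolution power. -/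
noncomputable def convPow (n : ℕ) [NeZero n] (p : ZMod n → ℝ) (k : ZMod n) : ℝ :=
  ∑ x : Fin n → ZMod n, if ∑ i, x i = k then ∏ i, p (x i) else 0

/-- **Determination of `M(n,k)`.**  Let `n ≥ 2`, `1 ≤ k ≤ n-1` and `o = n / gcd(n,k)`.  Then
`M(n,k) = max_{0 ≤ x ≤ 1} ∑_{j ≡ 1 mod o} C(n,j) x^j (1-x)^{n-j}`; `M(n,k)` is also the maximum of
`p^{*n}(k)` over all probability vectors `p` on `ℤ/n`.  If `gcd(n,k) = 1` then
`M(n,k) = (1 - 1/n)^{n-1}`, and if `n = 2k` then `M(n,k) = 1/2`. -/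
theorem result (n : ℕ) [NeZero n] (hn : 2 ≤ n) (k : ℕ) (hk : 0 < k) (hkn : k < n) :
    IsGreatest {v | ∃ x : ℝ, 0 ≤ x ∧ x ≤ 1 ∧ v = ∑ j ∈ range (n + 1),
      if j ≡ 1 [MOD n / Nat.gcd n k] then (n.choose j : ℝ) * x ^ j * (1 - x) ^ (n - j) else 0}
      (M n k) ∧
    IsGreatest {v | ∃ p : ZMod n → ℝ, (∀ i, 0 ≤ p i) ∧ ∑ i, p i = 1 ∧
      v = convPow n p (k : ZMod n)} (M n k) ∧
    (∀ (m : ℕ) (ℓ : Fin m → ℤ), 2 ≤ m → diceProb n m ℓ (k : ZMod n) ≤ M n k) ∧
    (Nat.gcd n k = 1 → M n k = (1 - 1 / (n : ℝ)) ^ (n - 1)) ∧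
    (n = 2 * k → M n k = 1 / 2) := by
  obtain ⟨M', h1, h2, h3, h4⟩ := Q9.Dice.dice_lub n hn k hk hkn
  obtain ⟨M'', g1, g2, -, -⟩ := Q9.Dice.final n hn k hk hkn
  have e1 : M n k = M' := IsLUB.csSup_eq h1 ⟨_, 2, fun _ => 0, le_rfl, rfl⟩
  have e2 : M'' = M' := g2.unique h2
  rw [e1]
  refine ⟨h2, ?_, fun m ℓ hm => h1.1 ⟨m, ℓ, hm, rfl⟩, h3, h4⟩
  rw [← e2]
  exact g1

end Pool.Agent.Results.MP_f30851_co.Determination
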